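import Pool.Agent.Y41.EV.StmL
import Pool.Agent.Y995.FS.LimF

/-!
Fast times of the exploration curve and of the lattice path.
-/

set_option autoImplicit false

namespace Pool.Agent.Y988.EV

open H974 Finset H342P H984P H984N MeasureTheory Filter Topology
open Pool.Agent.Y41.EV

/-- the times in an interval of length `1 / n` -/
theorem vol_slab {n : ℕ} (hn : 0 < n) (k : ℕ) :
    volume {t : unitInterval | (k : ℝ) ≤ t * n ∧ (t : ℝ) * n < k + 1} ≤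
      ENNReal.ofReal (1 / n) := by
  have hn' : (0 : ℝ) < n := by exact_mod_cast hn
  have h1 : volume {t : unitInterval | (k : ℝ) ≤ t * n ∧ (t : ℝ) * n < k + 1} =
      volume ((↑) '' {t : unitInterval | (k : ℝ) ≤ t * n ∧ (t : ℝ) * n < k + 1} : Set ℝ) :=
    comap_subtype_coe_apply measurableSet_Icc _ _
  rw [h1]
  have h2 : ((↑) '' {t : unitInterval | (k : ℝ) ≤ t * n ∧ (t : ℝ) * n < k + 1} : Set ℝ) ⊆
      Set.Ico ((k : ℝ) / n) ((k + 1) / n) := by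
    rintro _ ⟨t, ⟨h3, h4⟩, rfl⟩
    exact ⟨by rwa [div_le_iff₀ hn'], by rwa [lt_div_iff₀ hn']⟩
  refine (measure_mono h2).trans ?_
  rw [Real.volume_Ico]
  refine ENNReal.ofReal_le_ofReal (le_of_eq ?_)
  field_simp
  ring

theorem vol_one : volume ({1} : Set unitInterval) = 0 := by
  have h1 : volume ({1} : Set unitInterval) = volume ((↑) '' ({1} : Set unitInterval) : Set ℝ) :=
    comap_subtype_coe_apply measurableSet_Icc _ _
  rw [h1, Set.image_singleton]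
  exact Real.volume_singleton

/-- a set of times covered by slabs -/
theorem vol_cover {n : ℕ} (hn : 0 < n) (S : Set unitInterval) (G : Finset ℕ)
    (h : ∀ t ∈ S, t ≠ 1 → ∃ k ∈ G, (k : ℝ) ≤ t * n ∧ (t : ℝ) * n < k + 1) :
    (volume S).toReal ≤ G.card * (1 / n) := by
  have hn' : (0 : ℝ) < n := by exact_mod_cast hn
  have h1 : S ⊆ {1} ∪ ⋃ k ∈ G, {t : unitInterval | (k : ℝ) ≤ t * n ∧ (t : ℝ) * n < k + 1} := by
    intro t ht
    by_cases h2 : t = 1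
    · exact Or.inl h2
    · right
      obtain ⟨k, hk, h3⟩ := h t ht h2
      rw [Set.mem_iUnion₂]
      exact ⟨k, hk, h3⟩
  have h2 : volume S ≤ ∑ _k ∈ G, ENNReal.ofReal (1 / n) := by
    refine (measure_mono h1).trans ((measure_union_le _ _).trans ?_)
    rw [vol_one, zero_add]
    refine (measure_biUnion_finset_le _ _).trans ?_
    exact Finset.sum_le_sum fun k _ => vol_slab hn k
  rw [Finset.sum_const, nsmul_eq_mul] at h2
  have h3 : ((G.card : ENNReal) * ENNReal.ofReal (1 / n)).toReal = G.card * (1 / n) := by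
    rw [ENNReal.toReal_mul, ENNReal.toReal_natCast, ENNReal.toReal_ofReal (by positivity)]
  rw [← h3]
  exact ENNReal.toReal_mono (ENNReal.mul_ne_top (ENNReal.natCast_ne_top _) ENNReal.ofReal_ne_top) h2

/-- a point of the curve and the node before it -/
theorem near_floor {n : ℕ} {p : ℕ → ℂ} {η : ℝ} (hη : 0 ≤ η)
    (h : ∀ k < n, dist (p k) (p (k + 1)) ≤ η) (hn : 0 < n) (s : unitInterval) :
    ⌊(s : ℝ) * n⌋₊ ≤ n ∧ dist (pl n p s) (p ⌊(s : ℝ) * n⌋₊) ≤ η := by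
  have hn' : (0 : ℝ) < n := by exact_mod_cast hn
  have h0 : 0 ≤ (s : ℝ) * n := mul_nonneg s.2.1 hn'.le
  have h1 : (s : ℝ) * n ≤ n := by
    have := mul_le_mul_of_nonneg_right s.2.2 hn'.le
    rwa [one_mul] at this
  have h2 : ⌊(s : ℝ) * n⌋₊ ≤ n := Nat.floor_le_of_le h1
  refine ⟨h2, ?_⟩
  rcases h2.lt_or_eq with h3 | h3
  · rw [pl_seg h3 (Nat.floor_le h0) (Nat.lt_floor_add_one _).le, dist_eq_norm]
    have e : p ⌊(s : ℝ) * n⌋₊ + (((s : ℝ) * n - ⌊(s : ℝ) * n⌋₊ : ℝ) : ℂ) *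
        (p (⌊(s : ℝ) * n⌋₊ + 1) - p ⌊(s : ℝ) * n⌋₊) - p ⌊(s : ℝ) * n⌋₊ =
        (((s : ℝ) * n - ⌊(s : ℝ) * n⌋₊ : ℝ) : ℂ) *
        (p (⌊(s : ℝ) * n⌋₊ + 1) - p ⌊(s : ℝ) * n⌋₊) := by ring
    have h4 := Nat.floor_le h0
    have h5 := Nat.lt_floor_add_one ((s : ℝ) * n)
    rw [e, norm_mul, Complex.norm_real, Real.norm_eq_abs, abs_of_nonneg (by linarith),
      ← dist_eq_norm, dist_comm]
    have h6 : ((s : ℝ) * n - ⌊(s : ℝ) * n⌋₊) *
        dist (p ⌊(s : ℝ) * n⌋₊) (p (⌊(s : ℝ) * n⌋₊ + 1)) ≤ 1 * η :=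
      mul_le_mul (by linarith) (h _ h3) dist_nonneg (by norm_num)
    linarith
  · have h4 : (n : ℝ) ≤ (s : ℝ) * n := by
      have := Nat.floor_le h0
      rwa [h3] at this
    have h5 : s = 1 := by
      apply Subtype.ext
      have h6 : (s : ℝ) * n = 1 * n := by rw [one_mul]; exact le_antisymm h1 h4
      exact mul_right_cancel₀ hn'.ne' h6
    rw [h3, h5, pl_one, dist_self]
    exact hη

theorem floor_diff {a b : ℝ} (ha : 0 ≤ a) (hb : 0 ≤ b) {N : ℕ} (h : |a - b| < N) :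
    ⌊a⌋₊ ≤ ⌊b⌋₊ + N := by
  have h1 := Nat.floor_le ha
  have h2 := Nat.lt_floor_add_one b
  have h3 := (abs_lt.1 h).2
  have h4 : (⌊a⌋₊ : ℝ) < (⌊b⌋₊ + N + 1 : ℕ) := by
    push_cast
    linarith
  have h5 : ⌊a⌋₊ < ⌊b⌋₊ + N + 1 := by exact_mod_cast h4
  omega

/-- FTM: from the curve to the path. -/
theorem ftm : S_FTM := by
  classical
  intro R δ y h m N F hδ hy hh
  obtain ⟨D, hD⟩ : ∃ D, D = R.dm δ := ⟨_, rfl⟩
  obtain ⟨n, hn⟩ : ∃ n, n = D.len F := ⟨_, rfl⟩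
  obtain ⟨p, hp⟩ : ∃ p : ℕ → ℂ, p = fun k => pos δ (D.walk F k) := ⟨_, rfl⟩
  have hf : R.curve δ F = pl n p := by rw [hn, hp, hD]; rfl
  have hT : R.time δ F = δ ^ (7/4 : ℝ) * n := by rw [hn, hD]; rfl
  have hδ' : 0 < δ ^ (7/4 : ℝ) := Real.rpow_pos_of_pos hδ _
  rw [hT, hf, ← hD]
  rcases Nat.eq_zero_or_pos n with h0 | h0
  · rw [h0, Nat.cast_zero, mul_zero, zero_mul]
    positivity
  have hn' : (0 : ℝ) < n := by exact_mod_cast h0
  have hstep : ∀ k < n, dist (p k) (p (k + 1)) ≤ δ / 2 := by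
    intro k _
    rw [hp]
    have h1 : D.walk F (k + 1) = nxt (D.cfg F) (D.walk F k) := walk_succ D F k
    simp only [h1]
    exact pos_nxt hδ.le _ _
  have key := vol_cover h0 (FT (pl n p, δ ^ (7/4 : ℝ) * n) y h)
    ((Finset.range (D.len F + 1)).filter (fun t => ∃ s ≤ D.len F, s ≤ t + N ∧ t ≤ s + N ∧
    (m : ℤ) ≤ sd (D.walk F s).1 (D.walk F t).1)) (by
      rintro t ⟨s, hs1, hs2⟩ _
      simp only at hs1 hs2
      have ht0 : 0 ≤ (t : ℝ) * n := mul_nonneg t.2.1 hn'.le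
      have hs0 : 0 ≤ (s : ℝ) * n := mul_nonneg s.2.1 hn'.le
      obtain ⟨a1, a2⟩ := near_floor (by positivity) hstep h0 t
      obtain ⟨b1, b2⟩ := near_floor (by positivity) hstep h0 s
      have c1 : |(s : ℝ) * n - t * n| < N := by
        rw [← sub_mul, abs_mul, abs_of_pos hn']
        have c2 : δ ^ (7/4 : ℝ) * (|(s : ℝ) - t| * n) < δ ^ (7/4 : ℝ) * N := by
          calc δ ^ (7/4 : ℝ) * (|(s : ℝ) - t| * n) = δ ^ (7/4 : ℝ) * n * |(s : ℝ) - t| := by ring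
            _ < h := hs1
            _ ≤ N * δ ^ (7/4 : ℝ) := hh
            _ = δ ^ (7/4 : ℝ) * N := by ring
        exact lt_of_mul_lt_mul_left c2 hδ'.le
      refine ⟨⌊(t : ℝ) * n⌋₊, ?_, Nat.floor_le ht0, Nat.lt_floor_add_one _⟩
      rw [Finset.mem_filter, Finset.mem_range]
      refine ⟨by omega, ⌊(s : ℝ) * n⌋₊, by omega, floor_diff hs0 ht0 c1,
        floor_diff ht0 hs0 (by rwa [abs_sub_comm]), ?_⟩
      have d1 : dist (pl n p s) (pl n p t) ≤ δ / 2 +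
          dist (p ⌊(s : ℝ) * n⌋₊) (p ⌊(t : ℝ) * n⌋₊) + δ / 2 := by
        have e1 := dist_triangle (pl n p s) (p ⌊(s : ℝ) * n⌋₊) (pl n p t)
        have e2 := dist_triangle (p ⌊(s : ℝ) * n⌋₊) (p ⌊(t : ℝ) * n⌋₊) (pl n p t)
        rw [dist_comm (p ⌊(t : ℝ) * n⌋₊) (pl n p t)] at e2
        linarith
      have d2 := dist_pos_le hδ.le (D.walk F ⌊(s : ℝ) * n⌋₊) (D.walk F ⌊(t : ℝ) * n⌋₊)
      have d3 : dist (p ⌊(s : ℝ) * n⌋₊) (p ⌊(t : ℝ) * n⌋₊) =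
          dist (pos δ (D.walk F ⌊(s : ℝ) * n⌋₊)) (pos δ (D.walk F ⌊(t : ℝ) * n⌋₊)) := by rw [hp]
      have d4 : δ * (2 * m + 1) < δ * (2 * ((sd (D.walk F ⌊(s : ℝ) * n⌋₊).1
          (D.walk F ⌊(t : ℝ) * n⌋₊).1 : ℤ) : ℝ) + 1) := by
        rw [← d3] at d2
        nlinarith
      have d5 := lt_of_mul_lt_mul_left d4 hδ.le
      have d6 : ((m : ℤ) : ℝ) < ((sd (D.walk F ⌊(s : ℝ) * n⌋₊).1
          (D.walk F ⌊(t : ℝ) * n⌋₊).1 : ℤ) : ℝ) := by
        push_cast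
        linarith
      exact (Int.cast_lt.1 d6).le)
  have h4 : (FastT D F m N : ℝ) = (((Finset.range (D.len F + 1)).filter (fun t =>
      ∃ s ≤ D.len F, s ≤ t + N ∧ t ≤ s + N ∧
      (m : ℤ) ≤ sd (D.walk F s).1 (D.walk F t).1)).card : ℝ) := by
    unfold FastT
    congr!
  rw [h4]
  calc δ ^ (7/4 : ℝ) * n * (volume (FT (pl n p, δ ^ (7/4 : ℝ) * n) y h)).toReal
      ≤ δ ^ (7/4 : ℝ) * n * (_ * (1 / n)) :=
        mul_le_mul_of_nonneg_left key (by positivity)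
    _ = _ := by field_simp

end Pool.Agent.Y988.EV
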